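import Mathlib

/-!
# The number of `B`-th roots of unity modulo `m`
-/

set_option autoImplicit false

namespace Pool.Agent.TH201.PH

open Finset

/-- the solutions of `x ^ B = 1` -/
noncomputable def nroots (G : Type*) [Monoid G] (B : ℕ) : ℕ := Nat.card {x : G // x ^ B = 1}

theorem nroots_le_of_injective {G G' : Type*} [Monoid G] [Monoid G'] [Finite G'] (B : ℕ)
    (f : G →* G') (hf : Function.Injective f) : nroots G B ≤ nroots G' B := by
  unfold nroots
  refine Nat.card_le_card_of_injective
    (fun x : {x : G // x ^ B = 1} => (⟨f x.1, by rw [← map_pow, x.2, map_one]⟩ :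
      {x : G' // x ^ B = 1})) ?_
  intro x y hxy
  apply Subtype.ext
  apply hf
  exact congrArg Subtype.val hxy

theorem nroots_prod {G G' : Type*} [Monoid G] [Monoid G'] [Finite G] [Finite G'] (B : ℕ) :
    nroots (G × G') B ≤ nroots G B * nroots G' B := by
  unfold nroots
  rw [← Nat.card_prod]
  refine Nat.card_le_card_of_injective
    (fun x : {x : G × G' // x ^ B = 1} =>
      ((⟨x.1.1, by have := congrArg Prod.fst x.2; simpa using this⟩ : {x : G // x ^ B = 1}),
        (⟨x.1.2, by have := congrArg Prod.snd x.2; simpa using this⟩ :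
          {x : G' // x ^ B = 1}))) ?_
  intro x y hxy
  apply Subtype.ext
  have h1 := congrArg (fun z => z.1.1) hxy
  have h2 := congrArg (fun z => z.2.1) hxy
  exact Prod.ext h1 h2

theorem nroots_cyclic {G : Type*} [Group G] [Finite G] [IsCyclic G] (B : ℕ) (hB : 1 ≤ B) :
    nroots G B ≤ B := by
  classical
  have := Fintype.ofFinite G
  have h := IsCyclic.card_pow_eq_one_le (α := G) (n := B) hB
  unfold nroots
  rw [Nat.card_eq_fintype_card, Fintype.card_subtype]
  exact h

/-- a finite commutative group with a cyclic subgroup of index at most `k` -/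
theorem nroots_index {G : Type*} [CommGroup G] [Finite G] (H : Subgroup G) [IsCyclic H] (B : ℕ)
    (hB : 1 ≤ B) : nroots G B ≤ B * H.index := by
  classical
  have := Fintype.ofFinite G
  have : Fintype (G ⧸ H) := Fintype.ofFinite _
  have hH := nroots_cyclic (G := H) B hB
  set S : Finset G := univ.filter fun x => x ^ B = 1 with hS
  have e1 : nroots G B = S.card := by
    unfold nroots
    rw [Nat.card_eq_fintype_card, Fintype.card_subtype]
  rw [e1]
  have h1 : S.card ≤ B * (S.image (fun x : G => (x : G ⧸ H))).card := by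
    apply card_le_mul_card_image
    intro c hc
    obtain ⟨x0, hx0, rfl⟩ := mem_image.1 hc
    have hx0' : x0 ^ B = 1 := (mem_filter.1 hx0).2
    refine le_trans ?_ hH
    unfold nroots
    rw [← Fintype.card_coe, ← Nat.card_eq_fintype_card]
    refine Nat.card_le_card_of_injective
      (fun x : {x // x ∈ S.filter fun x : G => (x : G ⧸ H) = (x0 : G ⧸ H)} =>
        (⟨⟨x0⁻¹ * x.1, by
          have := (mem_filter.1 x.2).2
          exact QuotientGroup.eq.1 this.symm⟩, by
          have h2 : x.1 ^ B = 1 := (mem_filter.1 (mem_filter.1 x.2).1).2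
          apply Subtype.ext
          push_cast
          rw [mul_pow, inv_pow, hx0', h2]
          simp⟩ : {x : H // x ^ B = 1})) ?_
    intro x y hxy
    apply Subtype.ext
    have := congrArg (fun z : {x : H // x ^ B = 1} => (z.1 : G)) hxy
    simpa using this
  refine h1.trans (Nat.mul_le_mul_left _ ?_)
  refine (card_le_univ _).trans ?_
  rw [← Nat.card_eq_fintype_card]
  exact le_of_eq (Subgroup.index_eq_card H).symm

/-- units modulo a power of two -/
theorem nroots_two_pow (n B : ℕ) (hB : 1 ≤ B) : nroots (ZMod (2 ^ n))ˣ B ≤ 2 * B := by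
  rcases Nat.lt_or_ge n 2 with hn | hn
  · have hc : IsCyclic (ZMod (2 ^ n))ˣ := (ZMod.isCyclic_units_two_pow_iff n).2 (by omega)
    have : NeZero (2 ^ n) := ⟨by positivity⟩
    have := nroots_cyclic (G := (ZMod (2 ^ n))ˣ) B hB
    omega
  obtain ⟨k, rfl⟩ : ∃ k, n = k + 2 := ⟨n - 2, by omega⟩
  have : NeZero (2 ^ (k + 2)) := ⟨by positivity⟩
  have hu : IsUnit (5 : ZMod (2 ^ (k + 2))) := by
    have h5 : ((5 : ℕ) : ZMod (2 ^ (k + 2))) = 5 := by norm_num
    rw [← h5, ZMod.isUnit_iff_coprime]
    exact Nat.Coprime.pow_right _ (by norm_num)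
  set H : Subgroup (ZMod (2 ^ (k + 2)))ˣ := Subgroup.zpowers hu.unit with hH
  have ho : orderOf hu.unit = 2 ^ k := by
    rw [← orderOf_injective _ Units.coeHom_injective hu.unit, Units.coeHom_apply,
      IsUnit.unit_spec]
    exact ZMod.orderOf_five k
  have hcard : Nat.card H = 2 ^ k := by
    rw [hH, Nat.card_zpowers, ho]
  have htot : Nat.card (ZMod (2 ^ (k + 2)))ˣ = 2 ^ (k + 1) := by
    rw [Nat.card_eq_fintype_card, ZMod.card_units_eq_totient,
      Nat.totient_prime_pow_succ Nat.prime_two]
    norm_num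
  have hidx : H.index = 2 := by
    have h1 := H.index_mul_card
    rw [hcard, htot] at h1
    have h2 : 0 < 2 ^ k := by positivity
    have h3 : (2 : ℕ) ^ (k + 1) = 2 * 2 ^ k := by rw [pow_succ, mul_comm]
    exact Nat.eq_of_mul_eq_mul_right h2 (h1.trans h3)
  have := nroots_index H B hB
  rw [hidx] at this
  omega

theorem nroots_prime_pow (p n B : ℕ) (hp : p.Prime) (hB : 1 ≤ B) :
    nroots (ZMod (p ^ n))ˣ B ≤ 2 * B := by
  rcases eq_or_ne p 2 with rfl | h2
  · exact nroots_two_pow n B hB
  · have := ZMod.isCyclic_units_of_prime_pow p hp h2 n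
    have : NeZero (p ^ n) := ⟨pow_ne_zero _ hp.pos.ne'⟩
    have := nroots_cyclic (G := (ZMod (p ^ n))ˣ) B hB
    omega

theorem nroots_units (B : ℕ) (hB : 1 ≤ B) (m : ℕ) (hm : m ≠ 0) :
    nroots (ZMod m)ˣ B ≤ (2 * B) ^ m.primeFactors.card := by
  induction m using Nat.recOnPosPrimePosCoprime with
  | prime_pow p n hp hn =>
    rw [Nat.primeFactors_prime_pow hn.ne' hp, card_singleton, pow_one]
    exact nroots_prime_pow p n B hp hB
  | zero => exact absurd rfl hm
  | one =>
    have : IsCyclic (ZMod 1)ˣ := ZMod.isCyclic_units_one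
    unfold nroots
    rw [Nat.primeFactors_one, card_empty, pow_zero]
    exact Finite.card_le_one_iff_subsingleton.2 inferInstance
  | coprime a b ha hb hab iha ihb =>
    have ha0 : a ≠ 0 := by omega
    have hb0 : b ≠ 0 := by omega
    have : NeZero a := ⟨ha0⟩
    have : NeZero b := ⟨hb0⟩
    have : NeZero (a * b) := ⟨hm⟩
    let e : (ZMod (a * b))ˣ ≃* (ZMod a)ˣ × (ZMod b)ˣ :=
      (Units.mapEquiv (ZMod.chineseRemainder hab).toMulEquiv).trans MulEquiv.prodUnits
    refine (nroots_le_of_injective B e.toMonoidHom e.injective).trans ?_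
    refine (nroots_prod B).trans ?_
    rw [hab.primeFactors_mul, card_union_of_disjoint hab.disjoint_primeFactors, pow_add]
    exact Nat.mul_le_mul (iha ha0) (ihb hb0)

/-- the number of solutions of `X ^ B = 1` in `ZMod m` -/
theorem card_roots (B : ℕ) (hB : 1 ≤ B) (m : ℕ) [NeZero m] :
    (univ.filter fun X : ZMod m => X ^ B = 1).card ≤ (2 * B) ^ m.primeFactors.card := by
  classical
  refine le_trans ?_ (nroots_units B hB m (NeZero.ne m))
  unfold nroots
  rw [← Fintype.card_coe, ← Nat.card_eq_fintype_card]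
  have hun : ∀ X : {X // X ∈ univ.filter fun X : ZMod m => X ^ B = 1}, IsUnit X.1 := fun X =>
    IsUnit.of_pow_eq_one (mem_filter.1 X.2).2 (by omega)
  refine Nat.card_le_card_of_injective
    (fun X : {X // X ∈ univ.filter fun X : ZMod m => X ^ B = 1} =>
      (⟨(hun X).unit, by
        apply Units.ext
        push_cast
        rw [IsUnit.unit_spec]
        exact (mem_filter.1 X.2).2⟩ : {x : (ZMod m)ˣ // x ^ B = 1})) ?_
  intro X Y hXY
  apply Subtype.ext
  have := congrArg (fun z : {x : (ZMod m)ˣ // x ^ B = 1} => ((z.1 : (ZMod m)ˣ) : ZMod m)) hXY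
  simpa using this

end Pool.Agent.TH201.PH
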