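import Pool.Agent.TH201.PH.Classes
import Pool.Agent.TH201.PH.Roots
import Pool.Agent.H785R2.ABC.A345
import Pool.Agent.H785R2.ABC.A12

/-!
# One dyadic block
-/

set_option autoImplicit false

namespace Pool.Agent.TH201.PH

open Finset Pool.Agent.H785R2.ABC

/-- the height of a rational number -/
def H (x : ℚ) : ℕ := max x.num.natAbs x.den

theorem H_pos (x : ℚ) : 1 ≤ H x := le_max_of_le_right x.pos

/-- number of rational numbers of height at most `n` -/
theorem card_height (n : ℕ) (S : Finset ℚ) (hS : ∀ x ∈ S, H x ≤ n) : S.card ≤ 3 * n ^ 2 := by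
  rcases Nat.eq_zero_or_pos n with hn | hn
  · subst hn
    have : S = ∅ := by
      apply Finset.eq_empty_of_forall_notMem
      intro x hx
      have h1 := hS x hx
      have h2 := H_pos x
      omega
    simp [this]
  have h1 : S.card ≤ ((Icc (-(n : ℤ)) n) ×ˢ (Icc 1 n)).card := by
    apply Finset.card_le_card_of_injOn (fun x => (x.num, x.den))
    · intro x hx
      have h1 := hS x hx
      have h2 : x.num.natAbs ≤ n := (le_max_left _ _).trans h1
      have h3 : x.den ≤ n := (le_max_right _ _).trans h1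
      have h4 := x.pos
      simp only [Finset.coe_product, Set.mem_prod, Finset.mem_coe, Finset.mem_Icc]
      refine ⟨⟨by omega, by omega⟩, by omega, h3⟩
    · intro x _ y _ hxy
      simp only [Prod.mk.injEq] at hxy
      exact Rat.ext hxy.1 hxy.2
  rw [Finset.card_product, Int.card_Icc, Nat.card_Icc] at h1
  have h5 : ((n : ℤ) + 1 - -(n : ℤ)).toNat = 2 * n + 1 := by omega
  rw [h5] at h1
  have h6 : (2 * n + 1) * (n + 1 - 1) ≤ 3 * n ^ 2 := by
    rw [Nat.add_sub_cancel]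
    nlinarith
  exact h1.trans h6

/-- a divisor of the right size -/
theorem exists_divisor (N L : ℕ) (hL : 2 ≤ L) (hN : L ≤ N) :
    ∃ m : ℕ, m ∣ N ∧ L ≤ m ∧ m ≤ L * rad N := by
  have hN0 : N ≠ 0 := by omega
  have hne : (N.divisors.filter fun d => L ≤ d).Nonempty :=
    ⟨N, by rw [Finset.mem_filter]; exact ⟨Nat.mem_divisors_self N hN0, hN⟩⟩
  set m := (N.divisors.filter fun d => L ≤ d).min' hne with hm
  have hmem := Finset.min'_mem _ hne
  rw [← hm, Finset.mem_filter, Nat.mem_divisors] at hmem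
  refine ⟨m, hmem.1.1, hmem.2, ?_⟩
  have hm1 : m ≠ 1 := by omega
  obtain ⟨p, hp, hpm⟩ := Nat.exists_prime_and_dvd hm1
  obtain ⟨d, hd⟩ := hpm
  have hd0 : 0 < d := by
    rcases Nat.eq_zero_or_pos d with h | h
    · rw [h] at hd; omega
    · exact h
  have hdm : d < m := by
    rw [hd]
    exact lt_mul_of_one_lt_left hd0 hp.one_lt
  have hdN : d ∣ N := (Dvd.intro_left p hd.symm).trans hmem.1.1
  have hdL : d < L := by
    by_contra h
    have h2 : m ≤ d := Finset.min'_le _ _ (by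
      rw [Finset.mem_filter, Nat.mem_divisors]
      exact ⟨⟨hdN, hN0⟩, by omega⟩)
    omega
  have hpN : p ∣ N := (Dvd.intro d hd.symm).trans hmem.1.1
  have hpr : p ≤ rad N := by
    unfold rad
    exact Nat.le_of_dvd (Finset.prod_pos fun q hq => (Nat.prime_of_mem_primeFactors hq).pos)
      (Finset.dvd_prod_of_mem _ (Nat.mem_primeFactors.2 ⟨hp, hpN, hN0⟩))
  calc m = p * d := hd
    _ ≤ rad N * L := Nat.mul_le_mul hpr hdL.le
    _ = L * rad N := Nat.mul_comm _ _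

theorem rad_mono {m N : ℕ} (h : m ∣ N) (hN : N ≠ 0) : rad m ≤ rad N := by
  unfold rad
  exact Finset.prod_le_prod_of_subset_of_one_le' (Nat.primeFactors_mono h hN)
    (fun p hp _ => (Nat.prime_of_mem_primeFactors hp).pos)

/-- one block, first bound -/
theorem block1 (B K X : ℕ) (hB : 1 ≤ B) (Q : ℝ) (hQ : 0 ≤ Q) (T : Finset (ℚ × ℚ)) (f : ℚ × ℚ → ℕ)
    (hT : ∀ t ∈ T, t.1 ≠ 0 ∧ t.2 ≠ 0 ∧ H t.2 < 2 * K ∧ 8 * K ^ 2 ≤ f t ∧ 1 ≤ f t ∧ f t ≤ X ∧
      ((f t : ℕ) : ℤ) ∣ (t.1 * t.2 ^ B).num + (t.1 * t.2 ^ B).den ∧ (H t.1 : ℝ) * rad (f t) ≤ Q) :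
    (T.card : ℝ) ≤ ∑ m ∈ Icc 1 X, 3 * (Q / rad m) ^ 2 * (2 * B : ℝ) ^ m.primeFactors.card := by
  classical
  have h1 : T.card = ∑ m ∈ Icc 1 X, (T.filter fun t => f t = m).card := by
    apply Finset.card_eq_sum_card_fiberwise
    intro t ht
    have := hT t ht
    simp only [Finset.mem_coe, Finset.mem_Icc]
    exact ⟨this.2.2.2.2.1, this.2.2.2.2.2.1⟩
  rw [h1]
  push_cast
  apply Finset.sum_le_sum
  intro m hm
  rw [Finset.mem_Icc] at hm
  haveI : NeZero m := ⟨by omega⟩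
  set Tm := T.filter fun t => f t = m with hTm
  have hr : (0 : ℝ) < rad m := by exact_mod_cast rad_pos' m
  -- the first coordinates
  have h2 : (((Tm.image Prod.fst).card : ℕ) : ℝ) ≤ 3 * (Q / rad m) ^ 2 := by
    set n := ⌊Q / rad m⌋₊ with hn
    have hle : (n : ℝ) ≤ Q / rad m := Nat.floor_le (by positivity)
    have h3 := card_height n (Tm.image Prod.fst) (by
      intro x hx
      rw [Finset.mem_image] at hx
      obtain ⟨t, ht, rfl⟩ := hx
      rw [hTm, Finset.mem_filter] at ht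
      have h4 := (hT t ht.1).2.2.2.2.2.2.2
      rw [ht.2] at h4
      apply Nat.le_floor
      rw [le_div_iff₀ hr]
      exact h4)
    calc (((Tm.image Prod.fst).card : ℕ) : ℝ) ≤ ((3 * n ^ 2 : ℕ) : ℝ) := by exact_mod_cast h3
      _ = 3 * (n : ℝ) ^ 2 := by push_cast; ring
      _ ≤ 3 * (Q / rad m) ^ 2 := by
          apply mul_le_mul_of_nonneg_left _ (by norm_num)
          exact pow_le_pow_left₀ (Nat.cast_nonneg n) hle 2
  -- the fibres
  have h5 : ∀ x ∈ Tm.image Prod.fst,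
      (Tm.filter fun t => t.1 = x).card ≤ (2 * B) ^ m.primeFactors.card := by
    intro x hx
    rw [Finset.mem_image] at hx
    obtain ⟨t0, ht0, rfl⟩ := hx
    rw [hTm, Finset.mem_filter] at ht0
    have hx0 := (hT t0 ht0.1).1
    have h8 := (hT t0 ht0.1).2.2.2.1
    rw [ht0.2] at h8
    have hinj : (Tm.filter fun t => t.1 = t0.1).card =
        ((Tm.filter fun t => t.1 = t0.1).image Prod.snd).card := by
      rw [Finset.card_image_of_injOn]
      intro a ha b hb hab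
      simp only [Finset.coe_filter, Set.mem_setOf_eq] at ha hb
      exact Prod.ext (ha.2.trans hb.2.symm) hab
    rw [hinj]
    refine (class_bound B m K hB h8 t0.1 hx0 _ ?_).trans (card_roots B hB m)
    intro y hy
    rw [Finset.mem_image] at hy
    obtain ⟨t, ht, rfl⟩ := hy
    rw [Finset.mem_filter, hTm, Finset.mem_filter] at ht
    obtain ⟨⟨htT, htm⟩, htx⟩ := ht
    obtain ⟨-, g2, g3, g4, g5, g6, g7, -⟩ := hT t htT
    rw [htm, htx] at g7
    refine ⟨g2, lt_of_le_of_lt (le_max_left _ _) g3, lt_of_le_of_lt (le_max_right _ _) g3, g7⟩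
  have h6 : Tm.card ≤ (Tm.image Prod.fst).card * (2 * B) ^ m.primeFactors.card := by
    rw [Finset.card_eq_sum_card_image Prod.fst Tm]
    refine (Finset.sum_le_sum h5).trans ?_
    rw [Finset.sum_const, smul_eq_mul]
  calc (Tm.card : ℝ) ≤ (((Tm.image Prod.fst).card * (2 * B) ^ m.primeFactors.card : ℕ) : ℝ) := by
        exact_mod_cast h6
    _ = ((Tm.image Prod.fst).card : ℝ) * (2 * B : ℝ) ^ m.primeFactors.card := by push_cast; ring
    _ ≤ _ := mul_le_mul_of_nonneg_right h2 (by positivity)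

/-- one block, second bound -/
theorem block2 (B : ℕ) (hB : 1 ≤ B) (δ : ℝ) (hδ : 0 < δ) : ∃ D : ℝ, 0 < D ∧
    ∀ (K X : ℕ) (Q : ℝ) (T : Finset (ℚ × ℚ)) (f : ℚ × ℚ → ℕ), 1 ≤ X → 0 ≤ Q →
    (∀ t ∈ T, t.1 ≠ 0 ∧ t.2 ≠ 0 ∧ H t.2 < 2 * K ∧ 8 * K ^ 2 ≤ f t ∧ 1 ≤ f t ∧ f t ≤ X ∧
      ((f t : ℕ) : ℤ) ∣ (t.1 * t.2 ^ B).num + (t.1 * t.2 ^ B).den ∧
      (H t.1 : ℝ) * rad (f t) ≤ Q) →
    (T.card : ℝ) ≤ D * Q ^ 2 * (X : ℝ) ^ δ := by
  obtain ⟨D1, hD1, h1⟩ := stmtA1 (2 * B) (by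
    have : (1 : ℝ) ≤ B := by exact_mod_cast hB
    linarith) (δ / 2) (by positivity)
  obtain ⟨D2, hD2, h2⟩ := stmtA3_of stmtA2 (δ / 2) (by positivity)
  refine ⟨3 * D1 * D2, by positivity, fun K X Q T f hX hQ hT => ?_⟩
  refine (block1 B K X hB Q hQ T f hT).trans ?_
  have hX0 : (0 : ℝ) < X := by exact_mod_cast hX
  have h3 := h2 X hX 1 le_rfl
  rw [Nat.cast_one, div_one] at h3
  have h4 : (Icc 1 X).filter (fun d => 1 ∣ rad d) = Icc 1 X :=
    Finset.filter_true_of_mem fun d _ => one_dvd _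
  rw [h4] at h3
  calc ∑ m ∈ Icc 1 X, 3 * (Q / rad m) ^ 2 * (2 * B : ℝ) ^ m.primeFactors.card
      ≤ ∑ m ∈ Icc 1 X, 3 * D1 * Q ^ 2 * (X : ℝ) ^ (δ / 2) * ((1 : ℝ) / rad m) := by
        apply Finset.sum_le_sum
        intro m hm
        rw [Finset.mem_Icc] at hm
        have hr : (1 : ℝ) ≤ rad m := by exact_mod_cast rad_pos' m
        have hr0 : (0 : ℝ) < rad m := by linarith
        have hm0 : (0 : ℝ) < m := by exact_mod_cast hm.1
        have e1 := h1 m hm.1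
        have e2 : (m : ℝ) ^ (δ / 2) ≤ (X : ℝ) ^ (δ / 2) :=
          Real.rpow_le_rpow hm0.le (by exact_mod_cast hm.2) (by positivity)
        have e3 : (2 * B : ℝ) ^ m.primeFactors.card ≤ D1 * (X : ℝ) ^ (δ / 2) :=
          e1.trans (mul_le_mul_of_nonneg_left e2 hD1.le)
        have e4 : (Q / rad m) ^ 2 ≤ Q ^ 2 * ((1 : ℝ) / rad m) := by
          rw [div_pow, div_eq_mul_one_div (Q ^ 2)]
          apply mul_le_mul_of_nonneg_left _ (by positivity)
          apply one_div_le_one_div_of_le hr0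
          nlinarith
        calc 3 * (Q / rad m) ^ 2 * (2 * B : ℝ) ^ m.primeFactors.card
            ≤ 3 * (Q ^ 2 * ((1 : ℝ) / rad m)) * (D1 * (X : ℝ) ^ (δ / 2)) := by
              apply mul_le_mul _ e3 (by positivity) (by positivity)
              exact mul_le_mul_of_nonneg_left e4 (by norm_num)
          _ = _ := by ring
    _ = 3 * D1 * Q ^ 2 * (X : ℝ) ^ (δ / 2) * ∑ m ∈ Icc 1 X, ((1 : ℝ) / rad m) := by
        rw [Finset.mul_sum]
    _ ≤ 3 * D1 * Q ^ 2 * (X : ℝ) ^ (δ / 2) * (D2 * (X : ℝ) ^ (δ / 2)) := by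
        apply mul_le_mul_of_nonneg_left h3 (by positivity)
    _ = 3 * D1 * D2 * Q ^ 2 * (X : ℝ) ^ δ := by
        have : (X : ℝ) ^ δ = (X : ℝ) ^ (δ / 2) * (X : ℝ) ^ (δ / 2) := by
          rw [← Real.rpow_add hX0]; congr 1; ring
        rw [this]; ring

/-- the number of `y` for one `x` and one modulus -/
theorem block_fixed (B : ℕ) (hB : 1 ≤ B) (δ : ℝ) (hδ : 0 < δ) : ∃ D : ℝ, 0 < D ∧
    ∀ (K X : ℕ) (R : ℝ) (x : ℚ) (T : Finset ℚ) (f : ℚ → ℕ), x ≠ 0 → 1 ≤ X → 0 ≤ R →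
    (∀ y ∈ T, y ≠ 0 ∧ H y < 2 * K ∧ 8 * K ^ 2 ≤ f y ∧ 1 ≤ f y ∧ f y ≤ X ∧
      ((f y : ℕ) : ℤ) ∣ (x * y ^ B).num + (x * y ^ B).den ∧ (rad (f y) : ℝ) ≤ R) →
    (T.card : ℝ) ≤ D * R * (X : ℝ) ^ δ := by
  classical
  obtain ⟨D1, hD1, h1⟩ := stmtA1 (2 * B) (by
    have : (1 : ℝ) ≤ B := by exact_mod_cast hB
    linarith) (δ / 2) (by positivity)
  obtain ⟨D2, hD2, h2⟩ := stmtA4_of (stmtA3_of stmtA2) (δ / 2) (by positivity)
  refine ⟨D1 * D2, by positivity, fun K X R x T f hx hX hR hT => ?_⟩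
  have hX0 : (0 : ℝ) < X := by exact_mod_cast hX
  have h3 : T.card = ∑ m ∈ (Icc 1 X).filter (fun d => (rad d : ℝ) ≤ R),
      (T.filter fun y => f y = m).card := by
    apply Finset.card_eq_sum_card_fiberwise
    intro t ht
    have := hT t ht
    simp only [Finset.coe_filter, Finset.mem_Icc]
    exact ⟨⟨this.2.2.2.1, this.2.2.2.2.1⟩, this.2.2.2.2.2.2⟩
  have h4 : ∀ m ∈ (Icc 1 X).filter (fun d => (rad d : ℝ) ≤ R),
      ((T.filter fun y => f y = m).card : ℝ) ≤ D1 * (X : ℝ) ^ (δ / 2) := by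
    intro m hm
    rw [Finset.mem_filter, Finset.mem_Icc] at hm
    have hm0 : (0 : ℝ) < m := by exact_mod_cast hm.1.1
    have hNZ : NeZero m := ⟨by omega⟩
    have e1 := h1 m hm.1.1
    have e2 : (m : ℝ) ^ (δ / 2) ≤ (X : ℝ) ^ (δ / 2) :=
      Real.rpow_le_rpow hm0.le (by exact_mod_cast hm.1.2) (by positivity)
    have e3 : (2 * B : ℝ) ^ m.primeFactors.card ≤ D1 * (X : ℝ) ^ (δ / 2) :=
      e1.trans (mul_le_mul_of_nonneg_left e2 hD1.le)
    refine le_trans ?_ e3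
    rcases (T.filter fun y => f y = m).eq_empty_or_nonempty with he | ⟨y0, hy0⟩
    · rw [he, Finset.card_empty, Nat.cast_zero]
      positivity
    · rw [Finset.mem_filter] at hy0
      have h8 := (hT y0 hy0.1).2.2.1
      rw [hy0.2] at h8
      have h5 := (class_bound B m K hB h8 x hx (T.filter fun y => f y = m) (by
        intro y hy
        rw [Finset.mem_filter] at hy
        obtain ⟨g2, g3, g4, g5, g6, g7, -⟩ := hT y hy.1
        rw [hy.2] at g7
        exact ⟨g2, lt_of_le_of_lt (le_max_left _ _) g3, lt_of_le_of_lt (le_max_right _ _) g3,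
          g7⟩)).trans (card_roots B hB m)
      exact_mod_cast h5
  rw [h3]
  push_cast
  refine (Finset.sum_le_sum h4).trans ?_
  rw [Finset.sum_const, nsmul_eq_mul]
  have h6 := h2 X hX R hR
  calc (((Icc 1 X).filter fun d => (rad d : ℝ) ≤ R).card : ℝ) * (D1 * (X : ℝ) ^ (δ / 2))
      ≤ (D2 * (X : ℝ) ^ (δ / 2) * R) * (D1 * (X : ℝ) ^ (δ / 2)) :=
        mul_le_mul_of_nonneg_right h6 (by positivity)
    _ = D1 * D2 * R * (X : ℝ) ^ δ := by
        have : (X : ℝ) ^ δ = (X : ℝ) ^ (δ / 2) * (X : ℝ) ^ (δ / 2) := by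
          rw [← Real.rpow_add hX0]; congr 1; ring
        rw [this]; ring

end Pool.Agent.TH201.PH
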