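import Mathlib

/-!
# Rational numbers `y` such that `m` divides the numerator of `x y ^ B + 1`
-/

set_option autoImplicit false

namespace Pool.Agent.TH201.PH

open Finset

/-- the class modulo `m` of a rational number -/
def cl (m : ℕ) (w : ℚ) : ZMod m := (w.num : ZMod m) * ((w.den : ℕ) : ZMod m)⁻¹

theorem unit_of_coprime {m : ℕ} {s t : ℤ} (h : IsCoprime s t) {B : ℕ} (hB : B ≠ 0)
    (hst : ((s : ZMod m)) ^ B = ((t : ZMod m)) ^ B) : IsUnit (s : ZMod m) ∧ IsUnit (t : ZMod m) := by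
  obtain ⟨a, b, hab⟩ := (h.pow (m := B) (n := B))
  have h1 : (a : ZMod m) * (s : ZMod m) ^ B + (b : ZMod m) * (t : ZMod m) ^ B = 1 := by
    exact_mod_cast congrArg (Int.cast : ℤ → ZMod m) hab
  have h2 : IsUnit ((t : ZMod m) ^ B) := by
    rw [hst, ← add_mul] at h1
    exact IsUnit.of_mul_eq_one_right _ h1
  have h3 : IsUnit ((s : ZMod m) ^ B) := hst ▸ h2
  exact ⟨(isUnit_pow_iff hB).1 h3, (isUnit_pow_iff hB).1 h2⟩

/-- units from the divisibility -/
theorem unit_of_dvd {m : ℕ} (z : ℚ) (h : (m : ℤ) ∣ z.num + z.den) :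
    (z.num : ZMod m) = -((z.den : ℕ) : ZMod m) ∧ IsUnit ((z.den : ℕ) : ZMod m) := by
  have h1 : ((z.num + z.den : ℤ) : ZMod m) = 0 := (ZMod.intCast_zmod_eq_zero_iff_dvd _ _).2 h
  have h2 : (z.num : ZMod m) = -((z.den : ℕ) : ZMod m) := by
    push_cast at h1
    exact eq_neg_of_add_eq_zero_left h1
  refine ⟨h2, ?_⟩
  have hc : IsCoprime z.num (z.den : ℤ) := by
    rw [Int.isCoprime_iff_nat_coprime]
    simpa using z.reduced
  obtain ⟨a, b, hab⟩ := hc
  have h3 : (a : ZMod m) * (z.num : ZMod m) + (b : ZMod m) * ((z.den : ℕ) : ZMod m) = 1 := by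
    exact_mod_cast congrArg (Int.cast : ℤ → ZMod m) hab
  rw [h2, mul_neg, ← neg_mul, ← add_mul] at h3
  exact IsUnit.of_mul_eq_one_right _ h3

/-- the ratio of two members -/
theorem ratio {m B : ℕ} (hB : B ≠ 0) (x y y0 : ℚ) (hx : x ≠ 0) (hy : y ≠ 0) (hy0 : y0 ≠ 0)
    (h : (m : ℤ) ∣ (x * y ^ B).num + (x * y ^ B).den)
    (h0 : (m : ℤ) ∣ (x * y0 ^ B).num + (x * y0 ^ B).den) :
    (((y / y0).num : ZMod m)) ^ B = (((y / y0).den : ℕ) : ZMod m) ^ B ∧
      IsUnit ((y / y0).num : ZMod m) ∧ IsUnit (((y / y0).den : ℕ) : ZMod m) := by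
  set z := x * y ^ B with hz
  set z0 := x * y0 ^ B with hz0
  set w := y / y0 with hw
  obtain ⟨e1, u1⟩ := unit_of_dvd z h
  obtain ⟨e2, u2⟩ := unit_of_dvd z0 h0
  have hz0' : z0 ≠ 0 := mul_ne_zero hx (pow_ne_zero _ hy0)
  have hwz : w ^ B * z0 = z := by
    rw [hw, hz, hz0, div_pow]
    field_simp
  have hwd : (w.den : ℚ) ≠ 0 := by exact_mod_cast w.den_nz
  have hzd : (z.den : ℚ) ≠ 0 := by exact_mod_cast z.den_nz
  have hz0d : (z0.den : ℚ) ≠ 0 := by exact_mod_cast z0.den_nz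
  have hint : w.num ^ B * (z0.num * z.den) = (w.den : ℤ) ^ B * (z.num * z0.den) := by
    have h1 : (w.num : ℚ) / w.den = w := Rat.num_div_den w
    have h2 : (z.num : ℚ) / z.den = z := Rat.num_div_den z
    have h3 : (z0.num : ℚ) / z0.den = z0 := Rat.num_div_den z0
    have h4 : ((w.num : ℚ) / w.den) ^ B * ((z0.num : ℚ) / z0.den) = (z.num : ℚ) / z.den := by
      rw [h1, h2, h3, hwz]
    rw [div_pow] at h4
    field_simp at h4
    have h5 : (w.num : ℚ) ^ B * (z0.num * z.den) = (w.den : ℚ) ^ B * (z.num * z0.den) := by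
      linarith
    exact_mod_cast h5
  have hZ : ((w.num : ZMod m)) ^ B = ((w.den : ℕ) : ZMod m) ^ B := by
    have h5 : ((w.num : ZMod m)) ^ B * ((z0.num : ZMod m) * ((z.den : ℕ) : ZMod m)) =
        ((w.den : ℕ) : ZMod m) ^ B * ((z.num : ZMod m) * ((z0.den : ℕ) : ZMod m)) := by
      exact_mod_cast congrArg (Int.cast : ℤ → ZMod m) hint
    rw [e1, e2] at h5
    have h6 : (((w.num : ZMod m)) ^ B - ((w.den : ℕ) : ZMod m) ^ B) *
        (((z.den : ℕ) : ZMod m) * ((z0.den : ℕ) : ZMod m)) = 0 := by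
      linear_combination -h5
    have h7 := (u1.mul u2)
    exact sub_eq_zero.1 ((h7.mul_left_eq_zero).1 h6)
  have hc : IsCoprime w.num (w.den : ℤ) := by
    rw [Int.isCoprime_iff_nat_coprime]
    simpa using w.reduced
  have := unit_of_coprime (m := m) hc hB (by exact_mod_cast hZ)
  refine ⟨hZ, this.1, ?_⟩
  have h8 := this.2
  exact_mod_cast h8

theorem class_bound (B m K : ℕ) (hB : 1 ≤ B) [NeZero m] (hmK : 8 * K ^ 2 ≤ m) (x : ℚ)
    (hx : x ≠ 0) (S : Finset ℚ)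
    (hS : ∀ y ∈ S, y ≠ 0 ∧ y.num.natAbs < 2 * K ∧ y.den < 2 * K ∧
      (m : ℤ) ∣ (x * y ^ B).num + (x * y ^ B).den) :
    S.card ≤ (univ.filter fun X : ZMod m => X ^ B = 1).card := by
  classical
  rcases S.eq_empty_or_nonempty with h0 | ⟨y0, hy0⟩
  · rw [h0, card_empty]
    exact Nat.zero_le _
  obtain ⟨hy00, -, -, hd0⟩ := hS y0 hy0
  have hB0 : B ≠ 0 := by omega
  have hR : ∀ y ∈ S, (((y / y0).num : ZMod m)) ^ B = (((y / y0).den : ℕ) : ZMod m) ^ B ∧
      IsUnit ((y / y0).num : ZMod m) ∧ IsUnit (((y / y0).den : ℕ) : ZMod m) := fun y hy =>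
    ratio hB0 x y y0 hx (hS y hy).1 hy00 (hS y hy).2.2.2 hd0
  refine card_le_card_of_injOn (fun y => cl m (y / y0)) ?_ ?_
  · intro y hy
    obtain ⟨h1, h2, h3⟩ := hR y hy
    rw [mem_coe, mem_filter]
    refine ⟨mem_univ _, ?_⟩
    show (cl m (y / y0)) ^ B = 1
    rw [cl, mul_pow, h1, ← mul_pow, ZMod.mul_inv_of_unit _ h3, one_pow]
  · intro y hy y' hy' hyy
    obtain ⟨h1, h2, h3⟩ := hR y hy
    obtain ⟨h1', h2', h3'⟩ := hR y' hy'
    obtain ⟨hyn, hn, hd, -⟩ := hS y hy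
    obtain ⟨hyn', hn', hd', -⟩ := hS y' hy'
    have hyy' : cl m (y / y0) = cl m (y' / y0) := hyy
    unfold cl at hyy'
    set w := y / y0 with hw
    set w' := y' / y0 with hw'
    have hcross : (w.num : ZMod m) * ((w'.den : ℕ) : ZMod m) =
        (w'.num : ZMod m) * ((w.den : ℕ) : ZMod m) := by
      have e1 : ((w.den : ℕ) : ZMod m) * ((w.den : ℕ) : ZMod m)⁻¹ = 1 :=
        ZMod.mul_inv_of_unit _ h3
      have e2 : ((w'.den : ℕ) : ZMod m) * ((w'.den : ℕ) : ZMod m)⁻¹ = 1 :=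
        ZMod.mul_inv_of_unit _ h3'
      calc (w.num : ZMod m) * ((w'.den : ℕ) : ZMod m)
          = ((w.num : ZMod m) * ((w.den : ℕ) : ZMod m)⁻¹) *
              (((w.den : ℕ) : ZMod m) * ((w'.den : ℕ) : ZMod m)) := by
            linear_combination (-(w.num : ZMod m) * ((w'.den : ℕ) : ZMod m)) * e1
        _ = ((w'.num : ZMod m) * ((w'.den : ℕ) : ZMod m)⁻¹) *
              (((w.den : ℕ) : ZMod m) * ((w'.den : ℕ) : ZMod m)) := by rw [hyy']
        _ = (w'.num : ZMod m) * ((w.den : ℕ) : ZMod m) := by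
            linear_combination ((w'.num : ZMod m) * ((w.den : ℕ) : ZMod m)) * e2
    have hwn : w ≠ 0 := div_ne_zero hyn hy00
    have hwn' : w' ≠ 0 := div_ne_zero hyn' hy00
    set q := y / y' with hq
    have hqw : q = ((w.num * (w'.den : ℤ) : ℤ) : ℚ) / ((w.den * w'.num : ℤ) : ℚ) := by
      have a1 : (w.num : ℚ) / w.den = w := Rat.num_div_den w
      have a2 : (w'.num : ℚ) / w'.den = w' := Rat.num_div_den w'
      have a3 : q = w / w' := by
        rw [hq, hw, hw']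
        field_simp
      rw [a3]
      nth_rewrite 1 [← a1]
      nth_rewrite 1 [← a2]
      have a4 : (w'.num : ℚ) ≠ 0 := by exact_mod_cast Rat.num_ne_zero.2 hwn'
      have a5 : (w.den : ℚ) ≠ 0 := by exact_mod_cast w.den_nz
      have a6 : (w'.den : ℚ) ≠ 0 := by exact_mod_cast w'.den_nz
      push_cast
      field_simp
    have hne1 : (w.den * w'.num : ℤ) ≠ 0 :=
      mul_ne_zero (by exact_mod_cast w.den_nz) (Rat.num_ne_zero.2 hwn')
    obtain ⟨c, hc1, hc2⟩ := Rat.exists_eq_mul_div_num_and_eq_mul_div_den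
      (w.num * (w'.den : ℤ)) hne1
    rw [← hqw] at hc1 hc2
    have hqy : q = ((y.num * (y'.den : ℤ) : ℤ) : ℚ) / ((y.den * y'.num : ℤ) : ℚ) := by
      have a1 : (y.num : ℚ) / y.den = y := Rat.num_div_den y
      have a2 : (y'.num : ℚ) / y'.den = y' := Rat.num_div_den y'
      rw [hq]
      nth_rewrite 1 [← a1]
      nth_rewrite 1 [← a2]
      have a4 : (y'.num : ℚ) ≠ 0 := by exact_mod_cast Rat.num_ne_zero.2 hyn'
      have a5 : (y.den : ℚ) ≠ 0 := by exact_mod_cast y.den_nz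
      have a6 : (y'.den : ℚ) ≠ 0 := by exact_mod_cast y'.den_nz
      push_cast
      field_simp
    have hne2 : (y.den * y'.num : ℤ) ≠ 0 :=
      mul_ne_zero (by exact_mod_cast y.den_nz) (Rat.num_ne_zero.2 hyn')
    obtain ⟨c', hc1', hc2'⟩ := Rat.exists_eq_mul_div_num_and_eq_mul_div_den
      (y.num * (y'.den : ℤ)) hne2
    rw [← hqy] at hc1' hc2'
    -- `q.num ≡ q.den`
    have hcu : IsUnit (c : ZMod m) := by
      have e1 : (c : ZMod m) * ((q.den : ℕ) : ZMod m) =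
          ((w.den : ℕ) : ZMod m) * (w'.num : ZMod m) := by
        exact_mod_cast (congrArg (Int.cast : ℤ → ZMod m) hc2).symm
      have e2 : IsUnit ((c : ZMod m) * ((q.den : ℕ) : ZMod m)) := by
        rw [e1]
        exact h3.mul h2'
      exact isUnit_of_mul_isUnit_left e2
    have hqq : (q.num : ZMod m) = ((q.den : ℕ) : ZMod m) := by
      have e1 : (c : ZMod m) * (q.num : ZMod m) = (w.num : ZMod m) * ((w'.den : ℕ) : ZMod m) := by
        exact_mod_cast (congrArg (Int.cast : ℤ → ZMod m) hc1).symm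
      have e2 : (c : ZMod m) * ((q.den : ℕ) : ZMod m) =
          ((w.den : ℕ) : ZMod m) * (w'.num : ZMod m) := by
        exact_mod_cast (congrArg (Int.cast : ℤ → ZMod m) hc2).symm
      have e3 : (c : ZMod m) * ((q.num : ZMod m) - ((q.den : ℕ) : ZMod m)) = 0 := by
        rw [mul_sub, e1, e2, hcross]
        ring
      exact sub_eq_zero.1 ((hcu.mul_right_eq_zero).1 e3)
    have hmq : (m : ℤ) ∣ q.num - q.den := by
      rw [← ZMod.intCast_zmod_eq_zero_iff_dvd]
      push_cast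
      rw [hqq, sub_self]
    have hmE : (m : ℤ) ∣ y.num * (y'.den : ℤ) - y.den * y'.num := by
      rw [hc1', hc2', ← mul_sub]
      exact hmq.mul_left _
    have hE0 : y.num * (y'.den : ℤ) - y.den * y'.num = 0 := by
      apply Int.eq_zero_of_abs_lt_dvd hmE
      have b1 : |y.num * (y'.den : ℤ)| < 4 * (K : ℤ) ^ 2 := by
        rw [abs_mul, Int.abs_eq_natAbs, Nat.abs_cast]
        have : y.num.natAbs * y'.den < (2 * K) * (2 * K) := Nat.mul_lt_mul'' hn hd'
        have h9 : y.num.natAbs * y'.den < 4 * K ^ 2 := by nlinarith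
        exact_mod_cast h9
      have b2 : |(y.den : ℤ) * y'.num| < 4 * (K : ℤ) ^ 2 := by
        rw [abs_mul, Int.abs_eq_natAbs y'.num, Nat.abs_cast]
        have : y.den * y'.num.natAbs < (2 * K) * (2 * K) := Nat.mul_lt_mul'' hd hn'
        have h9 : y.den * y'.num.natAbs < 4 * K ^ 2 := by nlinarith
        exact_mod_cast h9
      have b3 : (8 * (K : ℤ) ^ 2) ≤ m := by exact_mod_cast hmK
      have b4 := abs_sub (y.num * (y'.den : ℤ)) ((y.den : ℤ) * y'.num)
      linarith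
    have a1 : (y.num : ℚ) / y.den = y := Rat.num_div_den y
    have a2 : (y'.num : ℚ) / y'.den = y' := Rat.num_div_den y'
    rw [← a1, ← a2]
    have a5 : (y.den : ℚ) ≠ 0 := by exact_mod_cast y.den_nz
    have a6 : (y'.den : ℚ) ≠ 0 := by exact_mod_cast y'.den_nz
    rw [div_eq_div_iff a5 a6]
    have h10 : y.num * (y'.den : ℤ) = y'.num * (y.den : ℤ) := by linarith
    exact_mod_cast h10

end Pool.Agent.TH201.PH
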