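import Pool.Agent.TH201.PH.Size

/-!
# Counting the pairs which violate Philippon's inequality
-/

set_option autoImplicit false

namespace Pool.Agent.TH201.PH

open Finset Pool.Agent.H785R2.ABC

/-- the pairs of nonzero rational numbers for which the inequality fails -/
def Bad (B : ℕ) (α β ε : ℝ) (t : ℚ × ℚ) : Prop :=
  t.1 ≠ 0 ∧ t.2 ≠ 0 ∧ t.1 * t.2 ^ B + 1 ≠ 0 ∧ Fail B α β ε t.1 t.2

/-- the modulus attached to a bad pair -/
theorem modulus (B : ℕ) (hB : 5 ≤ B) (α β ε : ℝ) (hα : 1 ≤ α) (hβ : 0 ≤ β) (hε : 0 ≤ ε)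
    (hεB : 2 ≤ ε * B) (t : ℚ × ℚ) (ht : Bad B α β ε t) :
    ∃ m : ℕ, 8 * (2 ^ Nat.log 2 (H t.2)) ^ 2 ≤ m ∧ 1 ≤ m ∧
      m ≤ 16 * (2 ^ Nat.log 2 (H t.2)) ^ 3 ∧
      (m : ℤ) ∣ (t.1 * t.2 ^ B).num + (t.1 * t.2 ^ B).den ∧
      (H t.1 : ℝ) * rad m ≤ (2 * 2 ^ Nat.log 2 (H t.2) : ℝ) ^ (1 / α) ∧
      (rad m : ℝ) ≤ (2 * 2 ^ Nat.log 2 (H t.2) : ℝ) ^ (1 / (α * B)) := by
  obtain ⟨hx, hy, hN, hf⟩ := ht
  obtain ⟨h1, h2, h2'⟩ := sizes B hB α β ε hα hβ hε hεB t.1 t.2 hx hy hN hf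
  rw [← Pool.Agent.H78R2.Phil.num_add_one]
  set N := (t.1 * t.2 ^ B + 1).num.natAbs with hNdef
  have hN0 : N ≠ 0 := by
    rw [hNdef, Int.natAbs_ne_zero]; exact Rat.num_ne_zero.2 hN
  have hH := H_pos t.2
  set K := 2 ^ Nat.log 2 (H t.2) with hK
  have hKH : K ≤ H t.2 := Nat.pow_log_le_self 2 (by omega)
  have hHK : H t.2 < 2 * K := by
    have := Nat.lt_pow_succ_log_self (b := 2) (by norm_num) (H t.2)
    rw [pow_succ] at this
    omega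
  have hK1 : 1 ≤ K := Nat.one_le_two_pow
  have h3 : 8 * K ^ 2 ≤ N := by
    have e1 : 8 * (H t.2) ^ 2 ≤ N := by exact_mod_cast h1
    have e2 : K ^ 2 ≤ (H t.2) ^ 2 := Nat.pow_le_pow_left hKH 2
    omega
  obtain ⟨m, hmN, hm1, hm2⟩ := exists_divisor N (8 * K ^ 2) (by nlinarith) h3
  have hxr : (1 : ℝ) ≤ H t.1 := by exact_mod_cast H_pos t.1
  have hrN : (1 : ℝ) ≤ rad N := by exact_mod_cast rad_pos' N
  have hHr : (1 : ℝ) ≤ H t.2 := by exact_mod_cast hH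
  have hr1 : (rad N : ℝ) ≤ H t.2 := by
    calc (rad N : ℝ) ≤ (H t.1 : ℝ) * rad N := le_mul_of_one_le_left (by linarith) hxr
      _ ≤ (H t.2 : ℝ) ^ (1 / α) := h2
      _ ≤ (H t.2 : ℝ) ^ (1 : ℝ) := by
          apply Real.rpow_le_rpow_of_exponent_le hHr
          rw [div_le_one (by linarith)]
          exact hα
      _ = H t.2 := Real.rpow_one _
  have hr2 : rad N ≤ H t.2 := by exact_mod_cast hr1
  have hcast : (K : ℝ) = 2 ^ Nat.log 2 (H t.2) := by rw [hK]; push_cast; rfl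
  have hm3 : (rad m : ℝ) ≤ rad N := by exact_mod_cast rad_mono hmN hN0
  refine ⟨m, hm1, by nlinarith, ?_, ?_, ?_, ?_⟩
  · calc m ≤ 8 * K ^ 2 * rad N := hm2
      _ ≤ 8 * K ^ 2 * (2 * K) := Nat.mul_le_mul_left _ (hr2.trans hHK.le)
      _ = 16 * K ^ 3 := by ring
  · exact Int.natCast_dvd.2 hmN
  · calc (H t.1 : ℝ) * rad m ≤ (H t.1 : ℝ) * rad N := mul_le_mul_of_nonneg_left hm3 (by linarith)
      _ ≤ (H t.2 : ℝ) ^ (1 / α) := h2
      _ ≤ (2 * 2 ^ Nat.log 2 (H t.2) : ℝ) ^ (1 / α) := by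
          apply Real.rpow_le_rpow (by linarith) _ (by positivity)
          rw [← hcast]
          exact_mod_cast hHK.le
  · calc (rad m : ℝ) ≤ rad N := hm3
      _ ≤ (H t.2 : ℝ) ^ (1 / (α * B)) := h2'
      _ ≤ (2 * 2 ^ Nat.log 2 (H t.2) : ℝ) ^ (1 / (α * B)) := by
          apply Real.rpow_le_rpow (by linarith) _ (by positivity)
          rw [← hcast]
          exact_mod_cast hHK.le

theorem count (B : ℕ) (hB : 5 ≤ B) (α β ε δ : ℝ) (hα : 1 ≤ α) (hβ : 0 ≤ β) (hε : 0 ≤ ε)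
    (hεB : 2 ≤ ε * B) (hδ : 0 < δ) : ∃ C : ℝ, 0 < C ∧ ∀ (Y : ℝ) (T : Finset (ℚ × ℚ)),
      (∀ t ∈ T, Bad B α β ε t ∧ (H t.2 : ℝ) ≤ Y) → 1 ≤ Y →
      (T.card : ℝ) ≤ C * Y ^ (2 / α + δ) := by
  classical
  obtain ⟨D, hD, hblock⟩ := block2 B (by omega) (δ / 3) (by positivity)
  choose! f hf using modulus B hB α β ε hα hβ hε hεB
  have hα0 : 0 < α := by linarith
  set s := 2 / α + δ with hs
  have hs0 : 0 < s := by positivity
  have h2s : 1 < (2 : ℝ) ^ s := Real.one_lt_rpow (by norm_num) hs0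
  set E := D * (2 : ℝ) ^ (2 / α) * (16 : ℝ) ^ (δ / 3) with hE
  have hE0 : 0 < E := by positivity
  refine ⟨E * ((2 : ℝ) ^ s / ((2 : ℝ) ^ s - 1)), ?_, fun Y T hT hY => ?_⟩
  · have : 0 < (2 : ℝ) ^ s - 1 := by linarith
    positivity
  set J := Nat.log 2 ⌊Y⌋₊ with hJ
  have hfl : 1 ≤ ⌊Y⌋₊ := Nat.le_floor (by exact_mod_cast hY)
  have hJY : (2 : ℝ) ^ J ≤ Y := by
    have h1 : 2 ^ J ≤ ⌊Y⌋₊ := Nat.pow_log_le_self 2 (by omega)
    have h2 : ((2 ^ J : ℕ) : ℝ) ≤ (⌊Y⌋₊ : ℝ) := by exact_mod_cast h1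
    push_cast at h2
    exact h2.trans (Nat.floor_le (by linarith))
  have h1 : T.card = ∑ j ∈ range (J + 1), (T.filter fun t => Nat.log 2 (H t.2) = j).card := by
    apply Finset.card_eq_sum_card_fiberwise
    intro t ht
    have h2 : H t.2 ≤ ⌊Y⌋₊ := Nat.le_floor (hT t ht).2
    simp only [Finset.mem_coe, Finset.mem_range]
    exact Nat.lt_succ_of_le (Nat.log_mono_right h2)
  have h2 : ∀ j ∈ range (J + 1), ((T.filter fun t => Nat.log 2 (H t.2) = j).card : ℝ) ≤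
      E * ((2 : ℝ) ^ s) ^ j := by
    intro j _
    have hb := hblock (2 ^ j) (16 * (2 ^ j) ^ 3) ((2 * 2 ^ j : ℝ) ^ (1 / α))
      (T.filter fun t => Nat.log 2 (H t.2) = j) f
      (by have := Nat.one_le_two_pow (n := j); nlinarith [Nat.one_le_pow 3 (2 ^ j) this])
      (by positivity) (by
        intro t ht
        rw [Finset.mem_filter] at ht
        obtain ⟨htT, htj⟩ := ht
        obtain ⟨g1, g2, g3, g4, g5, -⟩ := hf t (hT t htT).1
        rw [htj] at g1 g3 g5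
        have hlt : H t.2 < 2 * 2 ^ j := by
          have := Nat.lt_pow_succ_log_self (b := 2) (by norm_num) (H t.2)
          rw [pow_succ, htj] at this
          omega
        exact ⟨(hT t htT).1.1, (hT t htT).1.2.1, hlt, g1, g2, g3, g4, g5⟩)
    refine hb.trans (le_of_eq ?_)
    have hp : (0 : ℝ) < 2 ^ j := by positivity
    have e1 : (((2 * 2 ^ j : ℝ) ^ (1 / α)) ^ 2) = (2 : ℝ) ^ (2 / α) * ((2 : ℝ) ^ j) ^ (2 / α) := by
      rw [← Real.rpow_natCast, ← Real.rpow_mul (by positivity),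
        Real.mul_rpow (by norm_num) (by positivity)]
      push_cast
      rw [show 1 / α * 2 = 2 / α by ring]
    have e2 : (((16 * (2 ^ j) ^ 3 : ℕ) : ℝ)) ^ (δ / 3) =
        (16 : ℝ) ^ (δ / 3) * ((2 : ℝ) ^ j) ^ δ := by
      push_cast
      rw [Real.mul_rpow (by norm_num) (by positivity)]
      congr 1
      rw [← Real.rpow_natCast ((2 : ℝ) ^ j) 3, ← Real.rpow_mul hp.le]
      congr 1
      push_cast
      ring
    have e3 : ((2 : ℝ) ^ s) ^ j = ((2 : ℝ) ^ j) ^ (2 / α) * ((2 : ℝ) ^ j) ^ δ := by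
      rw [← Real.rpow_add hp, ← hs, ← Real.rpow_natCast ((2 : ℝ) ^ s) j,
        ← Real.rpow_mul (by norm_num), mul_comm s, Real.rpow_mul (by norm_num), Real.rpow_natCast]
    rw [e1, e2, e3, hE]
    ring
  have h3 : ∑ j ∈ range (J + 1), ((2 : ℝ) ^ s) ^ j ≤ (2 : ℝ) ^ s / ((2 : ℝ) ^ s - 1) * Y ^ s := by
    rw [geom_sum_eq h2s.ne']
    have hpos : 0 < (2 : ℝ) ^ s - 1 := by linarith
    have e1 : ((2 : ℝ) ^ s) ^ (J + 1) ≤ (2 : ℝ) ^ s * Y ^ s := by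
      rw [pow_succ, mul_comm]
      apply mul_le_mul_of_nonneg_left _ (by positivity)
      rw [← Real.rpow_natCast ((2 : ℝ) ^ s) J, ← Real.rpow_mul (by norm_num), mul_comm s,
        Real.rpow_mul (by norm_num), Real.rpow_natCast]
      exact Real.rpow_le_rpow (by positivity) hJY hs0.le
    rw [div_mul_eq_mul_div]
    apply div_le_div_of_nonneg_right _ hpos.le
    linarith
  rw [h1]
  push_cast
  calc ∑ j ∈ range (J + 1), ((T.filter fun t => Nat.log 2 (H t.2) = j).card : ℝ)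
      ≤ ∑ j ∈ range (J + 1), E * ((2 : ℝ) ^ s) ^ j := Finset.sum_le_sum h2
    _ = E * ∑ j ∈ range (J + 1), ((2 : ℝ) ^ s) ^ j := by rw [Finset.mul_sum]
    _ ≤ E * ((2 : ℝ) ^ s / ((2 : ℝ) ^ s - 1) * Y ^ s) := mul_le_mul_of_nonneg_left h3 hE0.le
    _ = _ := by ring

theorem count_fixed (B : ℕ) (hB : 5 ≤ B) (α β ε δ : ℝ) (hα : 1 ≤ α) (hβ : 0 ≤ β) (hε : 0 ≤ ε)
    (hεB : 2 ≤ ε * B) (hδ : 0 < δ) : ∃ C : ℝ, 0 < C ∧ ∀ (Y : ℝ) (x : ℚ) (T : Finset ℚ),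
      (∀ y ∈ T, Bad B α β ε (x, y) ∧ (H y : ℝ) ≤ Y) → 1 ≤ Y →
      (T.card : ℝ) ≤ C * Y ^ (1 / (α * B) + δ) := by
  classical
  obtain ⟨D, hD, hblock⟩ := block_fixed B (by omega) (δ / 3) (by positivity)
  choose! f hf using modulus B hB α β ε hα hβ hε hεB
  have hα0 : 0 < α := by linarith
  have hB0 : (0 : ℝ) < B := by exact_mod_cast (by omega : 0 < B)
  set s := 1 / (α * B) + δ with hs
  have hs0 : 0 < s := by positivity
  have h2s : 1 < (2 : ℝ) ^ s := Real.one_lt_rpow (by norm_num) hs0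
  set E := D * (2 : ℝ) ^ (1 / (α * B)) * (16 : ℝ) ^ (δ / 3) with hE
  have hE0 : 0 < E := by positivity
  have hC0 : 0 < E * ((2 : ℝ) ^ s / ((2 : ℝ) ^ s - 1)) := by
    have : 0 < (2 : ℝ) ^ s - 1 := by linarith
    positivity
  refine ⟨E * ((2 : ℝ) ^ s / ((2 : ℝ) ^ s - 1)), hC0, fun Y x T hT hY => ?_⟩
  rcases T.eq_empty_or_nonempty with he | ⟨y1, hy1⟩
  · rw [he, Finset.card_empty, Nat.cast_zero]
    positivity
  have hx : x ≠ 0 := (hT y1 hy1).1.1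
  set J := Nat.log 2 ⌊Y⌋₊ with hJ
  have hfl : 1 ≤ ⌊Y⌋₊ := Nat.le_floor (by exact_mod_cast hY)
  have hJY : (2 : ℝ) ^ J ≤ Y := by
    have h1 : 2 ^ J ≤ ⌊Y⌋₊ := Nat.pow_log_le_self 2 (by omega)
    have h2 : ((2 ^ J : ℕ) : ℝ) ≤ (⌊Y⌋₊ : ℝ) := by exact_mod_cast h1
    push_cast at h2
    exact h2.trans (Nat.floor_le (by linarith))
  have h1 : T.card = ∑ j ∈ range (J + 1), (T.filter fun y => Nat.log 2 (H y) = j).card := by
    apply Finset.card_eq_sum_card_fiberwise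
    intro t ht
    have h2 : H t ≤ ⌊Y⌋₊ := Nat.le_floor (hT t ht).2
    simp only [Finset.mem_coe, Finset.mem_range]
    exact Nat.lt_succ_of_le (Nat.log_mono_right h2)
  have h2 : ∀ j ∈ range (J + 1), ((T.filter fun y => Nat.log 2 (H y) = j).card : ℝ) ≤
      E * ((2 : ℝ) ^ s) ^ j := by
    intro j _
    have hb := hblock (2 ^ j) (16 * (2 ^ j) ^ 3) ((2 * 2 ^ j : ℝ) ^ (1 / (α * B))) x
      (T.filter fun y => Nat.log 2 (H y) = j) (fun y => f (x, y)) hx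
      (by have := Nat.one_le_two_pow (n := j); nlinarith [Nat.one_le_pow 3 (2 ^ j) this])
      (by positivity) (by
        intro t ht
        rw [Finset.mem_filter] at ht
        obtain ⟨htT, htj⟩ := ht
        obtain ⟨g1, g2, g3, g4, -, g5⟩ := hf (x, t) (hT t htT).1
        simp only at g1 g3 g4 g5
        rw [htj] at g1 g3 g5
        have hlt : H t < 2 * 2 ^ j := by
          have := Nat.lt_pow_succ_log_self (b := 2) (by norm_num) (H t)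
          rw [pow_succ, htj] at this
          omega
        exact ⟨(hT t htT).1.2.1, hlt, g1, g2, g3, g4, g5⟩)
    refine hb.trans (le_of_eq ?_)
    have hp : (0 : ℝ) < 2 ^ j := by positivity
    have e1 : ((2 * 2 ^ j : ℝ) ^ (1 / (α * B))) =
        (2 : ℝ) ^ (1 / (α * B)) * ((2 : ℝ) ^ j) ^ (1 / (α * B)) :=
      Real.mul_rpow (by norm_num) (by positivity)
    have e2 : (((16 * (2 ^ j) ^ 3 : ℕ) : ℝ)) ^ (δ / 3) =
        (16 : ℝ) ^ (δ / 3) * ((2 : ℝ) ^ j) ^ δ := by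
      push_cast
      rw [Real.mul_rpow (by norm_num) (by positivity)]
      congr 1
      rw [← Real.rpow_natCast ((2 : ℝ) ^ j) 3, ← Real.rpow_mul hp.le]
      congr 1
      push_cast
      ring
    have e3 : ((2 : ℝ) ^ s) ^ j = ((2 : ℝ) ^ j) ^ (1 / (α * B)) * ((2 : ℝ) ^ j) ^ δ := by
      rw [← Real.rpow_add hp, ← hs, ← Real.rpow_natCast ((2 : ℝ) ^ s) j,
        ← Real.rpow_mul (by norm_num), mul_comm s, Real.rpow_mul (by norm_num), Real.rpow_natCast]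
    rw [e1, e2, e3, hE]
    ring
  have h3 : ∑ j ∈ range (J + 1), ((2 : ℝ) ^ s) ^ j ≤ (2 : ℝ) ^ s / ((2 : ℝ) ^ s - 1) * Y ^ s := by
    rw [geom_sum_eq h2s.ne']
    have hpos : 0 < (2 : ℝ) ^ s - 1 := by linarith
    have e1 : ((2 : ℝ) ^ s) ^ (J + 1) ≤ (2 : ℝ) ^ s * Y ^ s := by
      rw [pow_succ, mul_comm]
      apply mul_le_mul_of_nonneg_left _ (by positivity)
      rw [← Real.rpow_natCast ((2 : ℝ) ^ s) J, ← Real.rpow_mul (by norm_num), mul_comm s,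
        Real.rpow_mul (by norm_num), Real.rpow_natCast]
      exact Real.rpow_le_rpow (by positivity) hJY hs0.le
    rw [div_mul_eq_mul_div]
    apply div_le_div_of_nonneg_right _ hpos.le
    linarith
  rw [h1]
  push_cast
  calc ∑ j ∈ range (J + 1), ((T.filter fun y => Nat.log 2 (H y) = j).card : ℝ)
      ≤ ∑ j ∈ range (J + 1), E * ((2 : ℝ) ^ s) ^ j := Finset.sum_le_sum h2
    _ = E * ∑ j ∈ range (J + 1), ((2 : ℝ) ^ s) ^ j := by rw [Finset.mul_sum]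
    _ ≤ E * ((2 : ℝ) ^ s / ((2 : ℝ) ^ s - 1) * Y ^ s) := mul_le_mul_of_nonneg_left h3 hE0.le
    _ = _ := by ring

end Pool.Agent.TH201.PH
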