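import Pool.Agent.TH201.PH.Block
import Pool.Agent.H78R2.Phil.Basic

/-!
# Sizes for a pair which violates Philippon's inequality
-/

set_option autoImplicit false

namespace Pool.Agent.TH201.PH

open Finset Pool.Agent.H785R2.ABC

theorem H_cast (x : ℚ) : ((H x : ℕ) : ℝ) = max |(x.num : ℝ)| (x.den : ℝ) := by
  unfold H
  rw [Nat.cast_max, Nat.cast_natAbs, Int.cast_abs]

theorem num_le (x y : ℚ) (hx : x ≠ 0) (hy : y ≠ 0) (B : ℕ) :
    (x * y ^ B + 1).num.natAbs ≤ 2 * (H x * H y ^ B) := by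
  rw [Pool.Agent.H78R2.Phil.num_add_one]
  have hxn : x.num.natAbs ≠ 0 := by simpa using hx
  have hyn : y.num.natAbs ≠ 0 := by simpa using hy
  have hxd := x.den_nz
  have hyd := y.den_nz
  have h1 : (x * y ^ B).num.natAbs ≤ H x * H y ^ B :=
    (Nat.le_of_dvd (Nat.pos_of_ne_zero (mul_ne_zero hxn (pow_ne_zero _ hyn)))
      (Pool.Agent.H78R2.Phil.num_dvd x y B)).trans
      (Nat.mul_le_mul (le_max_left _ _) (Nat.pow_le_pow_left (le_max_left _ _) B))
  have h2 : (x * y ^ B).den ≤ H x * H y ^ B :=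
    (Nat.le_of_dvd (Nat.pos_of_ne_zero (mul_ne_zero hxd (pow_ne_zero _ hyd)))
      (Pool.Agent.H78R2.Phil.den_dvd x y B)).trans
      (Nat.mul_le_mul (le_max_right _ _) (Nat.pow_le_pow_left (le_max_right _ _) B))
  omega

/-- the inequality fails -/
def Fail (B : ℕ) (α β ε : ℝ) (x y : ℚ) : Prop :=
  α * (B : ℝ) * Real.log (H x) + ε * (B : ℝ) * Real.log (H y) +
    (B : ℝ) * (α * (B : ℝ) + ε) * (β + Real.log (rad (x * y ^ B + 1).num.natAbs)) <
      Real.log ((x * y ^ B + 1).num.natAbs)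

theorem sizes (B : ℕ) (hB : 5 ≤ B) (α β ε : ℝ) (hα : 1 ≤ α) (hβ : 0 ≤ β) (hε : 0 ≤ ε)
    (hεB : 2 ≤ ε * B) (x y : ℚ) (hx : x ≠ 0) (hy : y ≠ 0) (hN : x * y ^ B + 1 ≠ 0)
    (hf : Fail B α β ε x y) :
    8 * (H y : ℝ) ^ 2 ≤ ((x * y ^ B + 1).num.natAbs : ℝ) ∧
    (H x : ℝ) * rad (x * y ^ B + 1).num.natAbs ≤ (H y : ℝ) ^ (1 / α) ∧
    (rad (x * y ^ B + 1).num.natAbs : ℝ) ≤ (H y : ℝ) ^ (1 / (α * B)) := by
  unfold Fail at hf
  have hle := num_le x y hx hy B
  set N := (x * y ^ B + 1).num.natAbs with hNdef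
  have hN0 : N ≠ 0 := by
    rw [hNdef, Int.natAbs_ne_zero]; exact Rat.num_ne_zero.2 hN
  have hHx : (1 : ℝ) ≤ H x := by exact_mod_cast H_pos x
  have hHy : (1 : ℝ) ≤ H y := by exact_mod_cast H_pos y
  have hBr : (5 : ℝ) ≤ B := by exact_mod_cast hB
  have ha : 0 ≤ Real.log (H x) := Real.log_nonneg hHx
  have hb : 0 ≤ Real.log (H y) := Real.log_nonneg hHy
  have hr1 : (1 : ℝ) ≤ rad N := by exact_mod_cast rad_pos' N
  have hρ0 : 0 ≤ Real.log (rad N) := Real.log_nonneg hr1
  have hN1 : N ≠ 1 := by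
    intro h
    rw [h] at hf
    simp only [Nat.cast_one, Real.log_one] at hf
    have : 0 ≤ α * (B : ℝ) * Real.log (H x) + ε * (B : ℝ) * Real.log (H y) +
      (B : ℝ) * (α * (B : ℝ) + ε) * (β + Real.log (rad 1)) := by
      have : 0 ≤ Real.log (rad 1) := Real.log_nonneg (by exact_mod_cast rad_pos' 1)
      positivity
    linarith
  have hr2 : (2 : ℝ) ≤ rad N := by
    obtain ⟨p, hp, hpN⟩ := Nat.exists_prime_and_dvd hN1
    have hpr : p ≤ rad N := by
      unfold rad
      exact Nat.le_of_dvd (Finset.prod_pos fun q hq => (Nat.prime_of_mem_primeFactors hq).pos)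
        (Finset.dvd_prod_of_mem _ (Nat.mem_primeFactors.2 ⟨hp, hpN, hN0⟩))
    exact_mod_cast hp.two_le.trans hpr
  have hNr : (0 : ℝ) < N := by exact_mod_cast Nat.pos_of_ne_zero hN0
  have hρ : Real.log 2 ≤ Real.log (rad N) := Real.log_le_log (by norm_num) hr2
  have hup : Real.log N ≤ Real.log 2 + Real.log (H x) + B * Real.log (H y) := by
    have h1 : (N : ℝ) ≤ 2 * ((H x : ℝ) * (H y : ℝ) ^ B) := by exact_mod_cast hle
    have h2 := Real.log_le_log hNr h1
    rw [Real.log_mul (by norm_num) (by positivity), Real.log_mul (by positivity) (by positivity),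
      Real.log_pow] at h2
    linarith
  generalize hadef : Real.log (H x) = a at *
  generalize hbdef : Real.log (H y) = b at *
  generalize hρdef : Real.log (rad N) = ρ at *
  have hlow : α * B * a + ε * B * b + α * B ^ 2 * ρ < Real.log N := by
    refine lt_of_le_of_lt ?_ hf
    have e1 : 0 ≤ (B : ℝ) * (α * B + ε) * β := by positivity
    have e2 : 0 ≤ (B : ℝ) * ε * ρ := by positivity
    nlinarith
  have hl2 : 0 < Real.log 2 := Real.log_pos (by norm_num)
  constructor
  · have h3 : 3 * Real.log 2 + 2 * b ≤ Real.log N := by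
      have e1 : 2 * b ≤ ε * B * b := mul_le_mul_of_nonneg_right hεB hb
      have e2 : 0 ≤ α * B * a := by positivity
      have e3 : 3 * ρ ≤ α * B ^ 2 * ρ := by
        apply mul_le_mul_of_nonneg_right _ hρ0
        nlinarith
      linarith
    have h4 : Real.log (8 * (H y : ℝ) ^ 2) ≤ Real.log N := by
      rw [Real.log_mul (by norm_num) (by positivity), Real.log_pow,
        show (8 : ℝ) = 2 ^ 3 by norm_num, Real.log_pow, hbdef]
      push_cast
      linarith
    exact (Real.log_le_log_iff (by positivity) hNr).1 h4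
  · have hαB : 5 ≤ α * B := by nlinarith
    have hHx0 : (0 : ℝ) < H x := by linarith
    have hHy0 : (0 : ℝ) < H y := by linarith
    have hr0 : (0 : ℝ) < rad N := by linarith
    have h5 : (α * B - 1) * (a + ρ) ≤ (B - 2) * b := by
      have e1 : 2 * b ≤ ε * B * b := mul_le_mul_of_nonneg_right hεB hb
      have e4 : α * B * ρ ≤ α * B ^ 2 * ρ := by
        apply mul_le_mul_of_nonneg_right _ hρ0
        nlinarith
      nlinarith
    have h6 : α * (a + ρ) ≤ b := by
      have e1 : α * ((α * B - 1) * (a + ρ)) ≤ α * ((B - 2) * b) :=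
        mul_le_mul_of_nonneg_left h5 (by linarith)
      have e2 : α * ((B - 2) * b) ≤ (α * B - 1) * b := by nlinarith
      have e3 : (α * B - 1) * (α * (a + ρ)) ≤ (α * B - 1) * b := by nlinarith
      exact le_of_mul_le_mul_left e3 (by linarith)
    have h7 : a + ρ ≤ b / α := by
      rw [le_div_iff₀ (by linarith)]
      linarith
    have h8 : Real.log ((H x : ℝ) * rad N) ≤ Real.log ((H y : ℝ) ^ (1 / α)) := by
      rw [Real.log_mul hHx0.ne' hr0.ne', Real.log_rpow hHy0, hadef, hρdef, hbdef]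
      calc a + ρ ≤ b / α := h7
        _ = 1 / α * b := by ring
    refine ⟨(Real.log_le_log_iff (by positivity) (by positivity)).1 h8, ?_⟩
    have h9 : (α * B ^ 2 - 1) * ρ ≤ (B - 2) * b := by
      have e1 : 2 * b ≤ ε * B * b := mul_le_mul_of_nonneg_right hεB hb
      have e4 : 0 ≤ (α * B - 1) * a := mul_nonneg (by linarith) ha
      nlinarith
    have h10 : α * B * ρ ≤ b := by
      have e1 : (α * B) * ((α * B ^ 2 - 1) * ρ) ≤ (α * B) * ((B - 2) * b) :=
        mul_le_mul_of_nonneg_left h9 (by positivity)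
      have e2 : (α * B) * ((B - 2) * b) ≤ (α * B ^ 2 - 1) * b := by
        rw [← mul_assoc]
        apply mul_le_mul_of_nonneg_right _ hb
        nlinarith
      have e3 : (α * B ^ 2 - 1) * (α * B * ρ) ≤ (α * B ^ 2 - 1) * b := by
        linarith
      exact le_of_mul_le_mul_left e3 (by nlinarith)
    have h11 : Real.log (rad N) ≤ Real.log ((H y : ℝ) ^ (1 / (α * B))) := by
      rw [Real.log_rpow hHy0, hρdef, hbdef, one_div, inv_mul_eq_div, le_div_iff₀ (by positivity)]
      linarith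
    exact (Real.log_le_log_iff (by positivity) (by positivity)).1 h11

end Pool.Agent.TH201.PH
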